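import Pool.Agent.N204.HR.Stm2

/-!
# The Hodge-Riemann relations and the classes fixed by the operator `J`
-/

set_option linter.unusedSectionVars false

open CategoryTheory AlgebraicGeometry TensorProduct

universe u

namespace Pool.Agent.N816.HR

open Module
open Pool.Agent.H914 Pool.Agent.H914.VarClass Pool.Agent.H914.VarClass.Obj
  Pool.Agent.H914.WeilCohomology
open Pool.Agent.Y121.AH (CW em dia dia_apply pq_ind isInternal two_zpow_ne)
open Pool.Agent.Y121.AHS
open Pool.Agent.N996.BP (conjH conjH_eq tq)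
open Pool.Agent.N996.BP.Geo (cc lop tauT lop_pq tr_lop)
open Pool.Agent.N204.RD.Raw (ap vzero)
open Pool.Agent.N204.HR (Jop toC clC)
open Pool.Agent.N204.HR.Raw (HodgeRiemann)

variable {k : Type u} [Field k] {𝒱 : VarClass k} {ops : CycleOps 𝒱} (T : HodgeTheory ops)
  (Y : 𝒱.Obj)

/-- The part of type `r`. -/
noncomputable def prt (r : ℤ × ℤ) : Module.End (CW (toH T)).K ((CW (toH T)).H Y) :=
  dia (isInternal (toH T) Y) fun r' => if r' = r then 1 else 0

variable {T Y}

lemma prt_same {p q : ℤ} {x : (CW (toH T)).H Y} (hx : x ∈ (toH T).pq Y p q) :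
    prt T Y (p, q) x = x := by
  rw [prt, dia_apply (isInternal (toH T) Y) _ (i := (p, q)) hx, if_pos rfl, one_smul]

lemma prt_ne {p q : ℤ} {r : ℤ × ℤ} {x : (CW (toH T)).H Y} (hx : x ∈ (toH T).pq Y p q)
    (hr : (p, q) ≠ r) : prt T Y r x = 0 := by
  rw [prt, dia_apply (isInternal (toH T) Y) _ (i := (p, q)) hx, if_neg hr, zero_smul]

lemma prt_mem (r : ℤ × ℤ) (x : (CW (toH T)).H Y) : prt T Y r x ∈ (toH T).pq Y r.1 r.2 := by
  refine pq_ind (toH T) (p := fun x => prt T Y r x ∈ (toH T).pq Y r.1 r.2) ?_ ?_ ?_ x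
  · intro p q x hx
    by_cases hr : (p, q) = r
    · subst hr
      rw [prt_same hx]
      exact hx
    · rw [prt_ne hx hr]
      exact Submodule.zero_mem _
  · intro a b ha hb; rw [map_add]; exact Submodule.add_mem _ ha hb
  · rw [map_zero]; exact Submodule.zero_mem _

/-- A class of degree `i` is the sum of its parts of the types `(p, q)` with `p + q = i`. -/
lemma sum_prt {i : ℕ} {x : (CW (toH T)).H Y} (hx : x ∈ (CW (toH T)).gr Y i) :
    ∃ s : Finset (ℤ × ℤ), (∀ r ∈ s, r.1 + r.2 = i) ∧ x = ∑ r ∈ s, prt T Y r x := by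
  classical
  have h0 : x ∈ ⨆ r : {r : ℤ × ℤ // r.1 + r.2 = i}, (toH T).pq Y r.1.1 r.1.2 := by
    have h1 := T.span Y i
    have h2 : (show HL T.W ℂ Y from x) ∈ grL T.W ℂ Y i := hx
    rw [h1] at h2
    exact h2
  have h3 : ∃ s : Finset (ℤ × ℤ), (∀ r ∈ s, r.1 + r.2 = i) ∧
      ∀ s' : Finset (ℤ × ℤ), s ⊆ s' → x = ∑ r ∈ s', prt T Y r x := by
    refine Submodule.iSup_induction
      (fun r : {r : ℤ × ℤ // r.1 + r.2 = i} => (toH T).pq Y r.1.1 r.1.2)
      (motive := fun x => ∃ s : Finset (ℤ × ℤ), (∀ r ∈ s, r.1 + r.2 = i) ∧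
        ∀ s' : Finset (ℤ × ℤ), s ⊆ s' → x = ∑ r ∈ s', prt T Y r x) h0 ?_ ?_ ?_
    · rintro ⟨⟨a, b⟩, hr⟩ x hx
      refine ⟨{(a, b)}, ?_, ?_⟩
      · intro r h
        rw [Finset.mem_singleton] at h
        rw [h]
        exact hr
      · intro s' hs'
        rw [Finset.sum_eq_single (a, b), prt_same hx]
        · intro r _ hr
          exact prt_ne hx (Ne.symm hr)
        · intro hn
          exact absurd (hs' (Finset.mem_singleton_self _)) hn
    · refine ⟨∅, by simp, ?_⟩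
      intro s' _
      simp
    · rintro x y ⟨s, hs, hx⟩ ⟨t, ht, hy⟩
      refine ⟨s ∪ t, ?_, ?_⟩
      · intro r hr
        rcases Finset.mem_union.1 hr with h | h
        · exact hs r h
        · exact ht r h
      · intro s' hs'
        have h1 := hx s' (Finset.union_subset_left hs')
        have h2 := hy s' (Finset.union_subset_right hs')
        conv_lhs => rw [h1, h2]
        rw [← Finset.sum_add_distrib]
        exact Finset.sum_congr rfl fun r _ => by rw [map_add]
  obtain ⟨s, hs, h4⟩ := h3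
  exact ⟨s, hs, h4 s (Finset.Subset.refl s)⟩

lemma pow_mem {D : Y.Cycles} (hD : Y.IsCyc 1 D) (n : ℕ) :
    clC T Y D ^ n ∈ (toH T).pq Y n n := by
  have h1 : clC T Y D ∈ (toH T).pq Y 1 1 := by
    have := (toH T).dec.cyc hD
    exact_mod_cast this
  induction n with
  | zero =>
    rw [pow_zero]
    have h2 : (1 : (CW (toH T)).H Y) ∈ (toH T).pq Y 0 0 := by
      have h3 := (Pool.Agent.N996.BP.Geo.isHodge_one (T := toH T) (X := Y)).2
      rw [Pool.Agent.N996.BP.Geo.em_one] at h3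
      exact_mod_cast h3
    exact_mod_cast h2
  | succ n ih =>
    rw [pow_succ]
    have h2 := (toH T).dec.mul ih h1
    push_cast
    exact h2

/-- The products with a class of type `(n, n)`. -/
lemma prt_mul {l : (CW (toH T)).H Y} {n : ℕ} (hl : l ∈ (toH T).pq Y n n) (r : ℤ × ℤ)
    (y : (CW (toH T)).H Y) : prt T Y (n + r.1, n + r.2) (l * y) = l * prt T Y r y := by
  refine pq_ind (toH T)
    (p := fun y => prt T Y (n + r.1, n + r.2) (l * y) = l * prt T Y r y) ?_ ?_ ?_ y
  · intro p q y hy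
    have h1 := (toH T).dec.mul hl hy
    by_cases hr : (p, q) = r
    · subst hr
      rw [prt_same h1, prt_same hy]
    · rw [prt_ne hy hr, mul_zero]
      refine prt_ne h1 ?_
      intro h2
      apply hr
      rw [Prod.mk.injEq] at h2
      exact Prod.ext (by linarith [h2.1]) (by linarith [h2.2])
  · intro a b ha hb
    rw [mul_add, map_add, ha, hb, map_add, mul_add]
  · rw [mul_zero, map_zero, map_zero, mul_zero]

/-- The trace of a class of type `(a, b)` with `a ≠ b` is zero. -/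
lemma tr_pq {a b : ℤ} (hab : a ≠ b) {z : (CW (toH T)).H Y} (hz : z ∈ (toH T).pq Y a b) :
    (CW (toH T)).tr Y z = 0 := by
  have h1 := tr_lop (T := toH T) (t := 2) z
  rw [lop_pq hz, map_smul, smul_eq_mul] at h1
  have h2 : ((2 : (CW (toH T)).K) ^ (a - b) - 1) * (CW (toH T)).tr Y z = 0 := by
    rw [sub_mul, one_mul, sub_eq_zero]
    exact h1
  rcases mul_eq_zero.1 h2 with h3 | h3
  · exact absurd (sub_eq_zero.1 (two_zpow_ne (T := toH T) (sub_eq_zero.1 h3))) hab
  · exact h3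

/-- The complex conjugation. -/
noncomputable def cj (x : (CW (toH T)).H Y) : (CW (toH T)).H Y :=
  sig (tauT (toH T)) (show ℂ ⊗[T.W.K] T.W.H Y from x)

lemma jop_eq (x : (CW (toH T)).H Y) : Jop (toH T) Y x = lop (toH T) Complex.I⁻¹ Y (cj x) := rfl

lemma cj_sum (s : Finset (ℤ × ℤ)) (f : ℤ × ℤ → (CW (toH T)).H Y) :
    cj (∑ r ∈ s, f r) = ∑ r ∈ s, cj (f r) := by
  have h1 : ∀ f : ℤ × ℤ → ℂ ⊗[(toH T).W.K] (toH T).W.H Y, sig (tauT (toH T)) (∑ r ∈ s, f r) =
      ∑ r ∈ s, sig (tauT (toH T)) (f r) := fun f => map_sum _ _ _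
  exact h1 f

lemma conjH_cj (x : (CW (toH T)).H Y) :
    (show (CW (toH T)).H Y from conjH T (show HL T.W ℂ Y from x)) = cj x :=
  conjH_eq (T := T) (X := Y) x

lemma iter_mul (l : HL T.W ℂ Y) (n : ℕ) (x : HL T.W ℂ Y) :
    (show (CW (toH T)).H Y from (mulL l)^[n] x) =
      (show (CW (toH T)).H Y from l) ^ n * (show (CW (toH T)).H Y from x) := by
  induction n with
  | zero =>
    rw [pow_zero, one_mul]
    rfl
  | succ n ih =>
    rw [Function.iterate_succ_apply', pow_succ', mul_assoc, ← ih]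
    rfl

lemma I_zpow (a : ℤ) : (Complex.I⁻¹) ^ (-a) = Complex.I ^ a := by
  rw [inv_zpow, _root_.zpow_neg, inv_inv]

lemma neg_pow_sign (j : ℕ) : (-1 : ℂ) ^ (2 * j * (2 * j - 1) / 2) = (-1) ^ j := by
  have h1 : 2 * j * (2 * j - 1) / 2 = j * (2 * j - 1) := by
    rw [mul_assoc]
    exact Nat.mul_div_cancel_left _ (by norm_num)
  rw [h1, pow_mul']
  rcases Nat.eq_zero_or_pos j with rfl | hj
  · simp
  · have h2 : Odd (2 * j - 1) := ⟨j - 1, by omega⟩
    rw [h2.neg_one_pow]

/-- **Positivity of the classes fixed by `J`.** -/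
theorem hd : Pool.Agent.N204.HR.S_HD.{u} := by
  classical
  intro k _ 𝒱 ops T Y D hR j x hx hj hJ hL hx0
  obtain ⟨hD, hconj, hpos⟩ := hR
  obtain ⟨s, hs, hsum⟩ := sum_prt hx
  set l := clC T Y D with hl
  set m := Y.dim - 2 * j with hm
  -- the parts are primitive
  have hprim : ∀ r : ℤ × ℤ, l ^ (m + 1) * prt T Y r x = 0 := by
    intro r
    rw [← prt_mul (pow_mem hD (m + 1)) r x, hL, map_zero]
  -- the operator on the parts
  have hcj : ∀ r : ℤ × ℤ, cj (prt T Y r x) ∈ (toH T).pq Y r.2 r.1 := by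
    intro r
    have h1 := hconj r.1 r.2 (prt T Y r x) (prt_mem r x)
    rw [← conjH_cj]
    exact h1
  have hJr : ∀ r : ℤ × ℤ, Jop (toH T) Y (prt T Y r x) =
      cc (toH T) (Complex.I ^ (r.1 - r.2)) • cj (prt T Y r x) := by
    intro r
    rw [jop_eq, lop_pq (hcj r)]
    congr 1
    have h1 := I_zpow (r.1 - r.2)
    rw [neg_sub] at h1
    exact h1
  have hJx : x = ∑ r ∈ s, cc (toH T) (Complex.I ^ (r.1 - r.2)) • cj (prt T Y r x) := by
    conv_lhs => rw [← hJ, hsum]
    rw [jop_eq, cj_sum, map_sum]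
    exact Finset.sum_congr rfl fun r _ => hJr r
  -- the values
  have hval : ∀ r ∈ s, ∃ ρ : ℝ, (-1) ^ j * (Complex.I ^ (r.1 - r.2) *
      toC (toH T) ((CW (toH T)).tr Y (l ^ m * prt T Y r x * cj (prt T Y r x)))) = ρ ∧ 0 ≤ ρ ∧
      (prt T Y r x ≠ 0 → 0 < ρ) := by
    intro r hr
    by_cases h0 : prt T Y r x = 0
    · refine ⟨0, ?_, le_rfl, fun h => absurd h0 h⟩
      rw [h0, mul_zero, zero_mul, map_zero]
      have h1 : toC (toH T) (0 : (CW (toH T)).K) = 0 := rfl
      rw [h1]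
      simp
    · have h1 : (mulL (emL T.W ℂ (ap (T.W.cl Y) D)))^[Y.dim - 2 * j + 1]
          (show HL T.W ℂ Y from prt T Y r x) = vzero _ := by
        have h2 := iter_mul (T := T) (Y := Y) (emL T.W ℂ (ap (T.W.cl Y) D)) (m + 1)
          (prt T Y r x)
        exact h2.trans (hprim r)
      obtain ⟨ρ, hρ, hρ1⟩ := hpos r.1 r.2 (2 * j) (prt T Y r x) (by
        have := hs r hr
        exact_mod_cast this) hj (prt_mem r x) h0 h1
      refine ⟨ρ, ?_, hρ.le, fun _ => hρ⟩
      rw [← hρ1, neg_pow_sign, ← mul_assoc]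
      congr 1
      have h2 := iter_mul (T := T) (Y := Y) (emL T.W ℂ (ap (T.W.cl Y) D)) m (prt T Y r x)
      have h3 : trL (mulL ((mulL (emL T.W ℂ (ap (T.W.cl Y) D)))^[Y.dim - 2 * j]
          (show HL T.W ℂ Y from prt T Y r x)) (conjH T (show HL T.W ℂ Y from prt T Y r x))) =
          toC (toH T) ((CW (toH T)).tr Y
            ((show (CW (toH T)).H Y from (mulL (emL T.W ℂ (ap (T.W.cl Y) D)))^[Y.dim - 2 * j]
              (show HL T.W ℂ Y from prt T Y r x)) *
              (show (CW (toH T)).H Y from conjH T (show HL T.W ℂ Y from prt T Y r x)))) := rfl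
      refine Eq.trans ?_ h3.symm
      rw [conjH_cj]
      congr 2
      rw [← hm]
      exact congrArg (fun z => z * cj (prt T Y r x)) h2.symm
  choose! ρ hρ hρ0 hρ1 using hval
  have hkey : (CW (toH T)).tr Y (l ^ m * x * x) = ∑ r ∈ s,
      cc (toH T) (Complex.I ^ (r.1 - r.2)) *
        (CW (toH T)).tr Y (l ^ m * prt T Y r x * cj (prt T Y r x)) := by
    have h1 : l ^ m * x * x = (∑ r ∈ s, l ^ m * prt T Y r x) *
        ∑ r ∈ s, cc (toH T) (Complex.I ^ (r.1 - r.2)) • cj (prt T Y r x) := by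
      rw [← hJx, ← Finset.mul_sum, ← hsum]
    rw [h1, Finset.sum_mul_sum, map_sum]
    refine Finset.sum_congr rfl fun r hr => ?_
    rw [map_sum, Finset.sum_eq_single r]
    · rw [mul_smul_comm, map_smul, smul_eq_mul]
    · intro r' hr' hne
      rw [mul_smul_comm, map_smul]
      have h2 := (toH T).dec.mul ((toH T).dec.mul (pow_mem hD m) (prt_mem r x)) (hcj r')
      rw [tr_pq ?_ h2, smul_zero]
      intro h3
      apply hne
      have h4 := hs r hr
      have h5 := hs r' hr'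
      exact Prod.ext (by linarith) (by linarith)
    · intro hn; exact absurd hr hn
  refine ⟨∑ r ∈ s, ρ r, ?_, ?_⟩
  · have h3 : ∃ r ∈ s, prt T Y r x ≠ 0 := by
      by_contra hcon
      push Not at hcon
      apply hx0
      rw [hsum]
      exact Finset.sum_eq_zero hcon
    obtain ⟨r, hr, hne⟩ := h3
    exact Finset.sum_pos' (fun r hr => hρ0 r hr) ⟨r, hr, hρ1 r hr hne⟩
  · rw [hkey, Complex.ofReal_sum]
    have h1 : toC (toH T) (∑ r ∈ s, cc (toH T) (Complex.I ^ (r.1 - r.2)) *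
        (CW (toH T)).tr Y (l ^ m * prt T Y r x * cj (prt T Y r x))) =
        ∑ r ∈ s, Complex.I ^ (r.1 - r.2) *
          toC (toH T) ((CW (toH T)).tr Y (l ^ m * prt T Y r x * cj (prt T Y r x))) := rfl
    rw [h1, Finset.mul_sum]
    exact Finset.sum_congr rfl fun r hr => hρ r hr

end Pool.Agent.N816.HR
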